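import Pool.Agent.H369Z.Err.Main

set_option autoImplicit false

namespace Pool.Agent.Results.MP_dafbe7_nt.ACorrelated

open Pool.Agent.H369Z.Err Filter

/-- Two members of the Selberg class, of integer degrees `2 ≤ d₁ < d₂`, for which the integral of
the product of the error terms over `[1, T]` is not even `O(T^2)`. -/
theorem result : ∃ (d₁ d₂ : ℕ) (a₁ a₂ : ℕ → ℂ) (F₁ F₂ : ℂ → ℂ), 2 ≤ d₁ ∧ d₁ < d₂ ∧
    InSelberg a₁ F₁ d₁ ∧ InSelberg a₂ F₂ d₂ ∧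
    ¬ ∃ C T₀ : ℝ, ∀ T : ℝ, T₀ ≤ T →
      ‖∫ x in (1 : ℝ)..T, err a₁ F₁ x * err a₂ F₂ x‖ ≤ C * T ^ (2 : ℝ) := by
  have h := weighted (fun _ => 1) 1 one_ne_zero 1 1 one_pos (fun _ _ => by simp)
    (Eventually.of_forall fun T => by simp)
  simpa only [Complex.ofReal_one, mul_one] using h

end Pool.Agent.Results.MP_dafbe7_nt.ACorrelated
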